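import Pool.Agent.H914R2.HodgeDefs

/-!
# Tate classes, generalised Tate classes, algebraic classes: definitions
-/

open CategoryTheory AlgebraicGeometry

universe u v

namespace Pool.Agent.H934.PT

open Pool.Agent.H914 VarClass Obj WeilCohomology

variable {k : Type u} [Field k] {𝒱 : VarClass k} {ops : CycleOps 𝒱}

/-- The Tate classes of degree `2 j` with respect to the endomorphism `f` and the number `q`: the
elements `x` of `H^(2j)(X)` with `f^* x = q ^ j x`. -/
noncomputable def tateClasses (W : WeilCohomology.{u, v} ops) {X : 𝒱.Obj} (f : X ⟶ X) (q j : ℕ) :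
    Submodule W.K (W.H X) :=
  W.gr X (2 * j) ⊓ Module.End.eigenspace (W.map f).toLinearMap ((q : W.K) ^ j)

/-- The generalised Tate classes of degree `2 j`: the elements `x` of `H^(2j)(X)` which are killed by a
power of `f^* - q ^ j`. -/
noncomputable def genTateClasses (W : WeilCohomology.{u, v} ops) {X : 𝒱.Obj} (f : X ⟶ X)
    (q j : ℕ) : Submodule W.K (W.H X) :=
  W.gr X (2 * j) ⊓ Module.End.maxGenEigenspace (W.map f).toLinearMap ((q : W.K) ^ j)

/-- The cycle `z` has codimension `j` and its class is multiplied by `q ^ j` by `f^*`. -/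
def IsFixedCycle (W : WeilCohomology.{u, v} ops) {X : 𝒱.Obj} (f : X ⟶ X) (q j : ℕ)
    (z : X.Cycles) : Prop :=
  X.IsCyc j z ∧ W.map f (W.cl X z) = (q : W.K) ^ j • W.cl X z

/-- The linear combinations of the classes of the cycles of codimension `j` whose classes are
multiplied by `q ^ j` by `f^*`. -/
noncomputable def algTateClasses (W : WeilCohomology.{u, v} ops) {X : 𝒱.Obj} (f : X ⟶ X)
    (q j : ℕ) : Submodule W.K (W.H X) :=
  Submodule.span W.K {x | ∃ z, IsFixedCycle W f q j z ∧ W.cl X z = x}

/-- The functional `x ↦ tr (x D ^ m)` on the cohomology of `X`. -/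
noncomputable def twistedTr (W : WeilCohomology.{u, v} ops) {X : 𝒱.Obj} (D : X.Cycles) (m : ℕ) :
    W.H X →ₗ[W.K] W.K :=
  W.tr X ∘ₗ LinearMap.mulRight W.K (W.cl X D ^ m)

/-- The elements `x` of `algTateClasses` with `tr (x y D ^ (n - 2 j)) = 0` for all `y` in
`algTateClasses`, where `n = dim X`. -/
noncomputable def numTrivial (W : WeilCohomology.{u, v} ops) {X : 𝒱.Obj} (D : X.Cycles) (f : X ⟶ X)
    (q j : ℕ) : Submodule W.K (W.H X) :=
  algTateClasses W f q j ⊓
    orthCompl (twistedTr W D (X.dim - 2 * j)) (algTateClasses W f q j : Set (W.H X))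

/-- The rank of the intersection form `(z, w) ↦ deg (z w D ^ (n - 2 j))`, `n = dim X`, on the cycles of
codimension `j` whose classes are multiplied by `q ^ j` by `f^*`, is at least `r`. -/
def FixedRankAtLeast (W : WeilCohomology.{u, v} ops) {X : 𝒱.Obj} (D : X.Cycles) (f : X ⟶ X)
    (q j r : ℕ) : Prop :=
  ∃ z : Fin r → X.Cycles, (∀ a, IsFixedCycle W f q j (z a)) ∧
    (Matrix.of fun a b =>
      X.V.degCycle (ops.mul (z a) (divPow ops D (X.dim - 2 * j) (z b)))).det ≠ 0

/-- The dimension of the space of Tate classes. -/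
noncomputable def tateDim (W : WeilCohomology.{u, v} ops) {X : 𝒱.Obj} (f : X ⟶ X) (q j : ℕ) : ℕ :=
  Module.finrank W.K (tateClasses W f q j)

/-- The dimension of the space of generalised Tate classes. -/
noncomputable def genTateDim (W : WeilCohomology.{u, v} ops) {X : 𝒱.Obj} (f : X ⟶ X) (q j : ℕ) :
    ℕ :=
  Module.finrank W.K (genTateClasses W f q j)

/-- The dimension of the space `numTrivial`. -/
noncomputable def numTrivialDim (W : WeilCohomology.{u, v} ops) {X : 𝒱.Obj} (D : X.Cycles)
    (f : X ⟶ X) (q j : ℕ) : ℕ :=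
  Module.finrank W.K (numTrivial W D f q j)

/-- The eigenvalue `q ^ j` of `f^*` on `H^(2j)(X)` is semisimple: all generalised Tate classes are Tate
classes. -/
def IsSemisimpleAt (W : WeilCohomology.{u, v} ops) {X : 𝒱.Obj} (f : X ⟶ X) (q j : ℕ) : Prop :=
  tateClasses W f q j = genTateClasses W f q j

/-- The number `m` is the dimension of the space of generalised Tate classes, the dimension of the space
of Tate classes has the same parity, and the eigenvalue is semisimple if `m ≤ 3`. -/
def ParityLaw (W : WeilCohomology.{u, v} ops) {X : 𝒱.Obj} (f : X ⟶ X) (q j m : ℕ) : Prop :=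
  genTateDim W f q j = m ∧ tateDim W f q j % 2 = m % 2 ∧ (m ≤ 3 → IsSemisimpleAt W f q j)

/-- The dimension of the space of Tate classes is at least `r`, and greater than `r` if `r < m`; twice
the dimension of `numTrivial` is at most `m - r`; the eigenvalue is semisimple if `m ≤ r + 2`. -/
def GapLaw (W : WeilCohomology.{u, v} ops) {X : 𝒱.Obj} (D : X.Cycles) (f : X ⟶ X) (q j m r : ℕ) :
    Prop :=
  r ≤ tateDim W f q j ∧ (r < m → r < tateDim W f q j) ∧ 2 * numTrivialDim W D f q j + r ≤ m ∧
    (m ≤ r + 2 → IsSemisimpleAt W f q j)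

end Pool.Agent.H934.PT
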