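import Pool.Agent.H934.PT.Uni
import Pool.Agent.H934.PT.Defs
import Pool.Agent.H934.GA.Geo

/-!
# The intersection form and the Frobenius
-/

open CategoryTheory AlgebraicGeometry Finset Module Polynomial

universe u v

namespace Pool.Agent.H934.PT

open Pool.Agent.H914 Pool.Agent.H447 VarClass Obj WeilCohomology Pool.Agent.H934.GA

variable {k : Type u} [Field k] {𝒱 : VarClass k} {ops : CycleOps 𝒱}
  {W : WeilCohomology.{u, v} ops} {X : 𝒱.Obj}

/-- The form `tr (x y ξ ^ m)`. -/
noncomputable def frm (W : WeilCohomology.{u, v} ops) (X : 𝒱.Obj) (D : X.Cycles) (m i : ℕ) :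
    W.gr X i →ₗ[W.K] W.gr X i →ₗ[W.K] W.K :=
  ((LinearMap.mul W.K (W.H X)).compr₂
    (W.tr X ∘ₗ LinearMap.mulRight W.K (W.cl X D ^ m))).domRestrict₁₂ (W.gr X i) (W.gr X i)

lemma frm_apply (D : X.Cycles) (m i : ℕ) (x y : W.gr X i) :
    frm W X D m i x y = W.tr X (x * y * W.cl X D ^ m) := rfl

lemma frm_symm {D : X.Cycles} {m j : ℕ} (x y : W.gr X (2 * j)) :
    frm W X D m (2 * j) x y = frm W X D m (2 * j) y x := by
  rw [frm_apply, frm_apply, W.even_comm x.2]

lemma cl_pow_mem {D : X.Cycles} (hD : X.IsCyc 1 D) (m : ℕ) :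
    W.cl X D ^ m ∈ W.gr X (2 * m) := by
  induction m with
  | zero => simpa using W.one_mem X
  | succ m ih =>
    rw [pow_succ]
    have := W.mul_mem ih (W.cl_mem hD)
    rwa [show 2 * m + 2 * 1 = 2 * (m + 1) by ring] at this

lemma even_comm' {D : X.Cycles} (hD : X.IsCyc 1 D) (m : ℕ) (a : W.H X) :
    a * W.cl X D ^ m = W.cl X D ^ m * a := (W.even_comm (cl_pow_mem hD m) a).symm

lemma frm_nondeg {D : X.Cycles} (hD : X.IsCyc 1 D) (hHL : HardLefschetz W X D) {i : ℕ}
    (hi : i ≤ X.dim) (x : W.gr X i) (h : ∀ y, frm W X D (X.dim - i) i x y = 0) : x = 0 := by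
  have h1 : W.cl X D ^ (X.dim - i) * (x : W.H X) = 0 := by
    apply W.nondeg
    intro b
    refine gr_induction (W.isInternal X)
      (p := fun b => W.tr X (W.cl X D ^ (X.dim - i) * x * b) = 0) ?_ ?_ b
    · intro l b hb
      by_cases hl : l = i
      · subst hl
        have h2 := h ⟨b, hb⟩
        rw [frm_apply] at h2
        change W.tr X (x * b * W.cl X D ^ (X.dim - l)) = 0 at h2
        rw [even_comm' hD, ← mul_assoc] at h2
        exact h2
      · exact W.tr_eq_zero (W.mul_mem (W.mul_mem (cl_pow_mem hD _) x.2) hb) (by omega)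
    · intro b b' hb hb'
      rw [mul_add, map_add, hb, hb', add_zero]
  apply Subtype.ext
  apply (hHL i hi).1 x x.2
  rw [LinearMap.pow_mulLeft, LinearMap.mulLeft_apply]
  exact h1

/-- The degree of the endomorphism. -/
lemma tr_map {D : X.Cycles} (hD : X.IsCyc 1 D) (hHL : HardLefschetz W X D) {f : X ⟶ X} {q : ℕ}
    (hf : W.map f (W.cl X D) = (q : W.K) • W.cl X D) (a : W.H X) :
    W.tr X (W.map f a) = (q : W.K) ^ X.dim * W.tr X a := by
  by_cases h1 : (1 : W.H X) = 0
  · rw [← one_mul (W.map f a), ← one_mul a, h1, zero_mul, zero_mul, map_zero, mul_zero]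
  have hmem : W.cl X D ^ X.dim ∈ W.gr X (2 * X.dim) := cl_pow_mem hD _
  refine tr_map_of_top hmem ?_ ?_ a
  · intro h0
    have h2 := eq_zero_of_top hmem h0
    apply h1
    refine (hHL 0 (Nat.zero_le _)).1 1 (W.one_mem X) ?_
    rw [Nat.sub_zero, LinearMap.pow_mulLeft, LinearMap.mulLeft_apply, h2, zero_mul]
  · rw [map_pow, hf, _root_.smul_pow]

/-- The Frobenius on a part of the cohomology. -/
noncomputable def fr (W : WeilCohomology.{u, v} ops) {X : 𝒱.Obj} (f : X ⟶ X) (i : ℕ) :
    Module.End W.K (W.gr X i) :=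
  (W.map f).toLinearMap.restrict (fun _ hx => W.map_mem f hx)

lemma fr_apply (f : X ⟶ X) (i : ℕ) (x : W.gr X i) : ((fr W f i x : W.gr X i) : W.H X) =
    W.map f x := rfl

lemma frm_iso {D : X.Cycles} (hD : X.IsCyc 1 D) (hHL : HardLefschetz W X D) {f : X ⟶ X} {q : ℕ}
    (hq : 0 < q) (hf : W.map f (W.cl X D) = (q : W.K) • W.cl X D) {j : ℕ} (hj : 2 * j ≤ X.dim)
    (x y : W.gr X (2 * j)) :
    frm W X D (X.dim - 2 * j) (2 * j) (fr W f (2 * j) x) (fr W f (2 * j) y) =
      ((q : W.K) ^ j) ^ 2 * frm W X D (X.dim - 2 * j) (2 * j) x y := by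
  have hq' : (q : W.K) ≠ 0 := by exact_mod_cast hq.ne'
  have h1 := tr_map hD hHL hf (x * y * W.cl X D ^ (X.dim - 2 * j))
  rw [map_mul (W.map f), map_mul (W.map f), map_pow, hf, _root_.smul_pow, mul_smul_comm, map_smul, smul_eq_mul] at h1
  rw [frm_apply, frm_apply, fr_apply, fr_apply]
  apply mul_left_cancel₀ (pow_ne_zero (X.dim - 2 * j) hq')
  rw [h1, ← mul_assoc, ← pow_mul, ← pow_add]
  congr 2
  omega

/-- Eigenspaces of the restriction. -/
lemma finrank_eig (f : X ⟶ X) (q j : ℕ) :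
    finrank W.K ((fr W f (2 * j)).eigenspace ((q : W.K) ^ j)) =
      finrank W.K (tateClasses W f q j) := by
  have h1 : ((fr W f (2 * j)).eigenspace ((q : W.K) ^ j)).map (W.gr X (2 * j)).subtype =
      tateClasses W f q j := by
    ext x
    rw [Submodule.mem_map, tateClasses, Submodule.mem_inf]
    constructor
    · rintro ⟨y, hy, rfl⟩
      rw [Module.End.mem_eigenspace_iff] at hy
      refine ⟨y.2, ?_⟩
      rw [Module.End.mem_eigenspace_iff]
      exact congrArg Subtype.val hy
    · rintro ⟨hx, hx'⟩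
      rw [Module.End.mem_eigenspace_iff] at hx'
      refine ⟨⟨x, hx⟩, ?_, rfl⟩
      rw [Module.End.mem_eigenspace_iff]
      exact Subtype.ext hx'
  rw [← h1]
  exact (Submodule.finrank_map_subtype_eq _ _).symm

lemma finrank_gen (f : X ⟶ X) (q j : ℕ) :
    finrank W.K ((fr W f (2 * j)).maxGenEigenspace ((q : W.K) ^ j)) =
      finrank W.K (genTateClasses W f q j) := by
  have hpow : ∀ (m : ℕ) (x : W.gr X (2 * j)),
      ((((fr W f (2 * j) - (q : W.K) ^ j • 1) ^ m) x : W.gr X (2 * j)) : W.H X) =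
        (((W.map f).toLinearMap - (q : W.K) ^ j • (1 : Module.End W.K (W.H X))) ^ m) x := by
    intro m
    induction m with
    | zero => intro x; rfl
    | succ m ih =>
      intro x
      rw [pow_succ, Module.End.mul_apply, ih, pow_succ, Module.End.mul_apply]
      rfl
  have h1 : ((fr W f (2 * j)).maxGenEigenspace ((q : W.K) ^ j)).map (W.gr X (2 * j)).subtype =
      genTateClasses W f q j := by
    ext x
    rw [Submodule.mem_map, genTateClasses, Submodule.mem_inf]
    constructor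
    · rintro ⟨y, hy, rfl⟩
      rw [Module.End.mem_maxGenEigenspace] at hy
      obtain ⟨m, hm⟩ := hy
      refine ⟨y.2, ?_⟩
      rw [Module.End.mem_maxGenEigenspace]
      refine ⟨m, ?_⟩
      rw [Submodule.subtype_apply, ← hpow, hm]
      rfl
    · rintro ⟨hx, hx'⟩
      rw [Module.End.mem_maxGenEigenspace] at hx'
      obtain ⟨m, hm⟩ := hx'
      refine ⟨⟨x, hx⟩, ?_, rfl⟩
      rw [Module.End.mem_maxGenEigenspace]
      refine ⟨m, ?_⟩
      apply Subtype.ext
      rw [hpow]
      exact hm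
  rw [← h1]
  exact (Submodule.finrank_map_subtype_eq _ _).symm

lemma cl_fixed {f : X ⟶ X} {q j : ℕ} {z : X.Cycles} (hz : IsFixedCycle W f q j z) :
    W.cl X z ∈ tateClasses W f q j := by
  rw [tateClasses, Submodule.mem_inf]
  refine ⟨W.cl_mem hz.1, ?_⟩
  rw [Module.End.mem_eigenspace_iff]
  exact hz.2

lemma alg_le (f : X ⟶ X) (q j : ℕ) : algTateClasses W f q j ≤ tateClasses W f q j := by
  rw [algTateClasses, Submodule.span_le]
  rintro _ ⟨z, hz, rfl⟩
  exact cl_fixed hz

lemma tate_le_gen (f : X ⟶ X) (q j : ℕ) : tateClasses W f q j ≤ genTateClasses W f q j := by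
  apply inf_le_inf_left
  intro x hx
  rw [Module.End.mem_maxGenEigenspace]
  refine ⟨1, ?_⟩
  rw [Module.End.mem_eigenspace_iff] at hx
  rw [pow_one, LinearMap.sub_apply, hx, LinearMap.smul_apply, Module.End.one_apply, sub_self]

/-- The main statement for one cohomology theory. -/
theorem main_W {D : X.Cycles} (hD : X.IsCyc 1 D) (hHL : HardLefschetz W X D) {f : X ⟶ X} {q : ℕ}
    (hq : 0 < q) (hf : W.map f (W.cl X D) = (q : W.K) • W.cl X D) {j : ℕ} (hj : 2 * j ≤ X.dim)
    {r : ℕ} (hr : FixedRankAtLeast W D f q j r) :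
    (∃ s, finrank W.K (genTateClasses W f q j) = finrank W.K (tateClasses W f q j) + 2 * s) ∧
      r ≤ finrank W.K (tateClasses W f q j) ∧
      (r < finrank W.K (genTateClasses W f q j) → r < finrank W.K (tateClasses W f q j)) ∧
      2 * finrank W.K (numTrivial W D f q j) + r ≤ finrank W.K (genTateClasses W f q j) := by
  obtain ⟨z, hz, hdet⟩ := hr
  set v : Fin r → W.gr X (2 * j) := fun a => ⟨W.cl X (z a), W.cl_mem (hz a).1⟩ with hv
  have hq' : (q : W.K) ≠ 0 := by exact_mod_cast hq.ne'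
  have hdet' : (Matrix.of fun a b => frm W X D (X.dim - 2 * j) (2 * j) (v a) (v b)).det ≠ 0 := by
    have h1 : (Matrix.of fun a b => frm W X D (X.dim - 2 * j) (2 * j) (v a) (v b)) =
        (Matrix.of fun a b => X.V.degCycle (ops.mul (z a)
          (divPow ops D (X.dim - 2 * j) (z b)))).map (Rat.castHom W.K) := by
      ext a b
      have h3 := divPow_mem (ops := ops) hD (X.dim - 2 * j) (hz b).1
      have h2 := tr_mul_cl (W := W) (hz a).1 h3 (by omega)
      rw [Matrix.of_apply, Matrix.map_apply, Matrix.of_apply, Rat.coe_castHom, ← h2,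
        cl_divPow, frm_apply, LinearMap.pow_mulLeft, LinearMap.mulLeft_apply, mul_assoc,
        even_comm' hD]
    rw [h1, ← RingHom.mapMatrix_apply, ← RingHom.map_det]
    rw [Rat.coe_castHom]
    intro h0
    apply hdet
    exact_mod_cast h0
  have hmain := gen_main (B := frm W X D (X.dim - 2 * j) (2 * j)) (φ := fr W f (2 * j))
    (c := (q : W.K) ^ j) (v := v) two_ne_zero (pow_ne_zero _ hq') frm_symm
    (fun x hx => frm_nondeg hD hHL hj x hx) (frm_iso hD hHL hq hf hj)
    (fun a => Subtype.ext (hz a).2) hdet'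
  rw [finrank_eig, finrank_gen] at hmain
  obtain ⟨h1, h2, h3, h4⟩ := hmain
  refine ⟨h1, h2, h3, ?_⟩
  have hNA : numTrivial W D f q j ≤ algTateClasses W f q j := inf_le_left
  have hNg : numTrivial W D f q j ≤ W.gr X (2 * j) :=
    hNA.trans ((alg_le f q j).trans inf_le_left)
  have hNt : ∀ x ∈ numTrivial W D f q j, ∀ y ∈ algTateClasses W f q j,
      W.tr X (x * y * W.cl X D ^ (X.dim - 2 * j)) = 0 := by
    intro x hx y hy
    rw [numTrivial, Submodule.mem_inf, orthCompl] at hx
    have h5 := hx.2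
    simp only [Submodule.mem_iInf] at h5
    exact h5 y hy
  have h5 := h4 ((numTrivial W D f q j).comap (W.gr X (2 * j)).subtype) (by
      intro x hx
      have h6 := alg_le f q j (hNA hx)
      rw [tateClasses, Submodule.mem_inf] at h6
      rw [Module.End.mem_eigenspace_iff]
      exact Subtype.ext ((Module.End.mem_eigenspace_iff).1 h6.2))
    (fun x hx y hy => hNt _ hx _ (hNA hy))
    (fun x hx a => by
      rw [frm_symm]
      exact hNt _ hx _ (Submodule.subset_span ⟨z a, hz a, rfl⟩))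
  rwa [(Submodule.comapSubtypeEquivOfLe hNg).finrank_eq] at h5

end Pool.Agent.H934.PT
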