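import Pool.Agent.H934.PT.Geo

/-!
# The multiplicity does not depend on the cohomology theory
-/

open CategoryTheory AlgebraicGeometry Finset Module Polynomial

universe u v

namespace Pool.Agent.H934.PT

open Pool.Agent.H914 Pool.Agent.H447 VarClass Obj WeilCohomology Pool.Agent.H934.GA

section Lin

variable {K : Type*} [Field K] [CharZero K] {V : Type*} [AddCommGroup V] [Module K V]
  [FiniteDimensional K V]

/-- The projector onto a generalised eigenspace as a polynomial. -/
lemma isProj_ev {φ : Module.End K V} {c : ℚ} {Q R u w : ℚ[X]} {N : ℕ}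
    (hQ : Q = (X - C c) ^ N * R) (hker : ev φ Q = 0) (hR : R.eval c ≠ 0)
    (huw : u * (X - C c) ^ N + w * R = 1) :
    LinearMap.IsProj (φ.maxGenEigenspace (c : K)) (ev φ (w * R)) := by
  have hN : ev φ ((X - C c) ^ N) = (φ - (c : K) • (1 : Module.End K V)) ^ N := by
    rw [map_pow, map_sub, ev_X, ev_C]
  constructor
  · intro x
    rw [Module.End.mem_maxGenEigenspace]
    refine ⟨N, ?_⟩
    rw [← hN, ← Module.End.mul_apply, ← map_mul,
      show (X - C c) ^ N * (w * R) = w * Q by rw [hQ]; ring, map_mul, hker, mul_zero,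
      LinearMap.zero_apply]
  · intro x hx
    rw [Module.End.mem_maxGenEigenspace] at hx
    obtain ⟨M, hM⟩ := hx
    have h1 : ev φ ((X - C c) ^ N) x = 0 := by
      have hcop : IsCoprime ((X - C (c : K)) ^ M) (R.map (algebraMap ℚ K)) := by
        apply IsCoprime.pow_left
        rw [(Polynomial.irreducible_X_sub_C (c : K)).coprime_iff_not_dvd, dvd_iff_isRoot, IsRoot,
          Polynomial.eval_map, ← Rat.coe_castHom, show algebraMap ℚ K = Rat.castHom K from rfl,
          eval₂_at_apply]
        intro h0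
        apply hR
        rw [Rat.coe_castHom] at h0
        exact_mod_cast h0
      refine eq_zero_of_coprime (φ := φ) hcop ?_ ?_
      · rw [aeval_sub_pow, hN, ← Module.End.mul_apply, ← pow_add, add_comm, pow_add,
          Module.End.mul_apply, hM, map_zero]
      · rw [← ev_apply, ← Module.End.mul_apply, ← map_mul, mul_comm, ← hQ, hker,
          LinearMap.zero_apply]
    have h2 : ev φ (u * (X - C c) ^ N + w * R) x = x := by
      rw [huw, map_one, Module.End.one_apply]
    rw [map_add, map_mul, LinearMap.add_apply, Module.End.mul_apply, h1, map_zero, zero_add] at h2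
    exact h2

end Lin

variable {k : Type u} [Field k] {𝒱 : VarClass k} {ops : CycleOps 𝒱}
  {W W' : WeilCohomology.{u, v} ops} {X : 𝒱.Obj}

/-- The generalised eigenspace for `q ^ j` is in degree `2 j`. -/
lemma gen_le {f : X ⟶ X} {q : ℕ} (hq : 1 < q) (hRH : RiemannHypothesis W X f q) (j : ℕ) :
    (fs W f).maxGenEigenspace ((q : W.K) ^ j) ≤ W.gr X (2 * j) := by
  obtain ⟨i, hi, -⟩ := fs_weight hq hRH ((q : W.K) ^ j)
  by_cases hbot : ∀ x ∈ (fs W f).maxGenEigenspace ((q : W.K) ^ j), x = 0
  · intro x hx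
    rw [hbot x hx]
    exact Submodule.zero_mem _
  push Not at hbot
  obtain ⟨x, hx, hx0⟩ := hbot
  obtain ⟨P, hP0, hPa, hPz⟩ := hRH i
  suffices h : i = 2 * j by rw [← h]; exact hi
  have hroot : P.eval ((q : ℚ) ^ j) = 0 := by
    by_contra hcon
    apply hx0
    rw [Module.End.mem_maxGenEigenspace] at hx
    obtain ⟨M, hM⟩ := hx
    have hcop : IsCoprime ((Polynomial.X - C ((q : W.K) ^ j)) ^ M) (P.map (algebraMap ℚ W.K)) := by
      apply IsCoprime.pow_left
      rw [(Polynomial.irreducible_X_sub_C _).coprime_iff_not_dvd, dvd_iff_isRoot, IsRoot,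
        Polynomial.eval_map, show ((q : W.K) ^ j) = algebraMap ℚ W.K ((q : ℚ) ^ j) by simp, eval₂_at_apply]
      intro h0
      apply hcon
      exact (map_eq_zero _).1 h0
    refine eq_zero_of_coprime (φ := fs W f) hcop ?_ ?_
    · rw [aeval_sub_pow, hM]
    · exact hPa x (hi ((Module.End.mem_maxGenEigenspace _ _ _).2 ⟨M, hM⟩))
  have h1 := hPz ((q : ℂ) ^ j) (by
    rw [show ((q : ℂ) ^ j) = algebraMap ℚ ℂ ((q : ℚ) ^ j) by simp, aeval_algebraMap_apply,
      Polynomial.coe_aeval_eq_eval, hroot, map_zero])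
  rw [norm_pow, Complex.norm_natCast, ← pow_mul] at h1
  have h3 : (1 : ℝ) < q := by exact_mod_cast hq
  have := pow_right_injective₀ (by linarith) h3.ne' h1
  omega

lemma gen_eq {f : X ⟶ X} {q : ℕ} (hq : 1 < q) (hRH : RiemannHypothesis W X f q) (j : ℕ) :
    genTateClasses W f q j = (fs W f).maxGenEigenspace ((q : W.K) ^ j) :=
  inf_eq_right.2 (gen_le hq hRH j)

/-- Polynomials which annihilate the Frobenius for two theories. -/
lemma exists_ann {f : X ⟶ X} {q : ℕ} (hRH : RiemannHypothesis W X f q)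
    (hRH' : RiemannHypothesis W' X f q) :
    ∃ Q : ℚ[X], Q ≠ 0 ∧ ev (fs W f) Q = 0 ∧ ev (fs W' f) Q = 0 := by
  choose P hP0 hPa _ using hRH
  choose P' hP0' hPa' _ using hRH'
  have key : ∀ (W : WeilCohomology.{u, v} ops) (P Q : ℕ → ℚ[X]),
      (∀ i, ∀ a ∈ W.gr X i, aeval (fs W f) ((P i).map (algebraMap ℚ W.K)) a = 0) →
      ev (fs W f) ((∏ i ∈ range (2 * X.dim + 1), P i) * ∏ i ∈ range (2 * X.dim + 1), Q i) = 0 := by
    intro W P Q hP
    have h1 : ev (fs W f) (∏ i ∈ range (2 * X.dim + 1), P i) = 0 := by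
      apply gr_ext (W.isInternal X)
      intro i a ha
      rw [LinearMap.zero_apply]
      by_cases hi : 2 * X.dim < i
      · rw [W.gr_eq_bot X i hi, Submodule.mem_bot] at ha
        rw [ha, map_zero]
      · have h2 := Finset.mul_prod_erase (range (2 * X.dim + 1)) P
          (Finset.mem_range.2 (show i < 2 * X.dim + 1 by omega))
        rw [← h2, mul_comm, map_mul, Module.End.mul_apply, ev_apply (fs W f) (P i), hP i a ha,
          map_zero]
    rw [map_mul, h1, zero_mul]
  refine ⟨(∏ i ∈ range (2 * X.dim + 1), P i) * ∏ i ∈ range (2 * X.dim + 1), P' i, ?_,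
    key W P P' hPa, ?_⟩
  · exact mul_ne_zero (Finset.prod_ne_zero_iff.2 fun i _ => hP0 i)
      (Finset.prod_ne_zero_iff.2 fun i _ => hP0' i)
  · rw [mul_comm]
    exact key W' P' P hPa'

/-- The dimension of the space of generalised Tate classes does not depend on the theory. -/
lemma finrank_gen_indep {f : X ⟶ X} {q : ℕ} (hq : 1 < q) (hRH : RiemannHypothesis W X f q)
    (hRH' : RiemannHypothesis W' X f q) (j : ℕ) :
    finrank W.K (genTateClasses W f q j) = finrank W'.K (genTateClasses W' f q j) := by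
  obtain ⟨Q, hQ0, hQ, hQ'⟩ := exists_ann hRH hRH'
  obtain ⟨R, hQR, hR⟩ := Polynomial.exists_eq_pow_rootMultiplicity_mul_and_not_dvd Q hQ0
    ((q : ℚ) ^ j)
  have hR' : R.eval ((q : ℚ) ^ j) ≠ 0 := fun h0 => hR (dvd_iff_isRoot.2 h0)
  obtain ⟨u, w, huw⟩ : IsCoprime ((Polynomial.X - C ((q : ℚ) ^ j)) ^
      Q.rootMultiplicity ((q : ℚ) ^ j)) R := by
    apply IsCoprime.pow_left
    rw [(Polynomial.irreducible_X_sub_C _).coprime_iff_not_dvd]
    exact hR
  have hrel : relOp X W W' (ev (fs W f) (w * R)) (ev (fs W' f) (w * R)) := by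
    obtain ⟨Y, hY, hYW⟩ := rop_map (W := W) f
    have hreal : Realized ops X 0 (fun W => fs W f) := by
      refine Or.inl ⟨X.dim, by simp,
        ops.push (Obj.lift f (𝟙 X)) X.V.fundCycle, ops.push_mem _ X.V.fundCycle_mem ?_,
        fun W => ?_⟩
      · rw [dim_prod]; omega
      · apply LinearMap.ext
        intro a
        have e1 : Obj.lift f (𝟙 X) ≫ snd X X = 𝟙 X := Obj.lift_snd _ _
        have e2 : Obj.lift f (𝟙 X) ≫ fst X X = f := Obj.lift_fst _ _
        rw [W.cl_push, W.cl_fund, corr_apply, ← W.push_mul, ← W.push_comp, ← W.map_comp, e1, e2,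
          W.push_id, one_mul]
        rfl
    exact ⟨_, hreal.ev (w * R), rfl, rfl⟩
  obtain ⟨N, hN, hN'⟩ := (relOp_pairRel X W W').tr hrel
  have key : ∀ (W : WeilCohomology.{u, v} ops), RiemannHypothesis W X f q →
      ev (fs W f) Q = 0 → LinearMap.trace W.K (W.H X) (par (W.isInternal X) *
        ev (fs W f) (w * R)) = N → ((finrank W.K (genTateClasses W f q j) : ℕ) : ℚ) = N := by
    intro W hRH hQ hN
    have hproj := isProj_ev (K := W.K) hQR hQ hR' huw
    have hcast : (((q : ℚ) ^ j : ℚ) : W.K) = (q : W.K) ^ j := by push_cast; rfl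
    rw [hcast] at hproj
    have hpar : par (W.isInternal X) * ev (fs W f) (w * R) = ev (fs W f) (w * R) := by
      apply LinearMap.ext
      intro x
      rw [Module.End.mul_apply, par, scal_apply _ _ (gen_le hq hRH j (hproj.map_mem x)), pow_mul]
      simp
    rw [hpar, hproj.trace, ← gen_eq hq hRH j] at hN
    exact_mod_cast hN
  have h1 := key W hRH hQ hN
  have h2 := key W' hRH' hQ' hN'
  exact_mod_cast h1.trans h2.symm

end Pool.Agent.H934.PT
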