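import Pool.Agent.H442R3.MPar.Alt

/-!
# Unipotent isometries of quadratic spaces
-/

open Module

namespace Pool.Agent.H934.PT

section Alt

variable {K : Type*} [Field K] {V : Type*} [AddCommGroup V] [Module K V] [FiniteDimensional K V]

/-- The rank of an alternating form is even. -/
theorem even_alt (h2 : (2 : K) ≠ 0) (ω : V →ₗ[K] V →ₗ[K] K) (hω : ∀ x, ω x x = 0) :
    ∃ s, finrank K V = finrank K (LinearMap.ker ω) + 2 * s := by
  obtain ⟨C, hC⟩ := (LinearMap.ker ω).exists_isCompl
  have hdim := Submodule.finrank_add_eq_of_isCompl hC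
  have heven : Even (finrank K C) := by
    by_contra hno
    rw [Nat.not_even_iff_odd] at hno
    obtain ⟨r, hr0, hr⟩ := Pool.Agent.H442R3.MPar.exists_radical (X := C) h2
      ((ω.domRestrict C).compl₂ C.subtype) (fun x => hω _) hno
    apply hr0
    have hskew : ∀ x y, ω x y = - ω y x := by
      intro x y
      have h := hω (x + y)
      simp only [LinearMap.add_apply, map_add] at h
      rw [hω x, hω y] at h
      linear_combination h
    have h3 : (r : V) ∈ LinearMap.ker ω ⊓ C := by
      refine Submodule.mem_inf.2 ⟨?_, r.2⟩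
      rw [LinearMap.mem_ker]
      apply LinearMap.ext
      intro y
      have hy : y ∈ LinearMap.ker ω ⊔ C := by rw [hC.sup_eq_top]; trivial
      obtain ⟨k, hk, d, hd, rfl⟩ := Submodule.mem_sup.1 hy
      have e1 : ω r k = 0 := by
        rw [hskew, LinearMap.mem_ker.1 hk, LinearMap.zero_apply, neg_zero]
      have e2 : ω r d = 0 := hr ⟨d, hd⟩
      rw [map_add, e1, e2, LinearMap.zero_apply, add_zero]
    rw [hC.inf_eq_bot] at h3
    exact Subtype.ext ((Submodule.mem_bot K).1 h3)
  obtain ⟨s, hs⟩ := heven
  exact ⟨s, by omega⟩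

end Alt

section Uni

variable {K : Type*} [Field K] {V : Type*} [AddCommGroup V] [Module K V] [FiniteDimensional K V]
  {B : V →ₗ[K] V →ₗ[K] K} {ψ : Module.End K V}

/-- A unipotent operator with a trivial kernel of `ψ - 1` lives on the zero space. -/
lemma exists_fixed (hnil : IsNilpotent (ψ - 1)) {p : V → Prop} (hp : ∀ x, p x → p ((ψ - 1) x))
    {x : V} (hx : p x) (hx0 : x ≠ 0) : ∃ y, p y ∧ y ≠ 0 ∧ ψ y = y := by
  classical
  obtain ⟨N, hN⟩ := hnil
  have hex : ∃ k : ℕ, ((ψ - 1) ^ k) x = 0 := ⟨N, by rw [hN, LinearMap.zero_apply]⟩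
  set k := Nat.find hex with hk
  have hk1 : ((ψ - 1) ^ k) x = 0 := Nat.find_spec hex
  have hk0 : k ≠ 0 := by
    intro h0
    rw [h0, pow_zero, Module.End.one_apply] at hk1
    exact hx0 hk1
  obtain ⟨m, hm⟩ := Nat.exists_eq_succ_of_ne_zero hk0
  have hpm : ∀ i : ℕ, p (((ψ - 1) ^ i) x) := by
    intro i
    induction i with
    | zero => simpa using hx
    | succ i ih => rw [pow_succ', Module.End.mul_apply]; exact hp _ ih
  refine ⟨((ψ - 1) ^ m) x, hpm m, ?_, ?_⟩
  · intro h0
    have : k ≤ m := Nat.find_min' hex h0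
    omega
  · rw [hm, Nat.succ_eq_add_one, pow_succ', Module.End.mul_apply, LinearMap.sub_apply,
      Module.End.one_apply, sub_eq_zero] at hk1
    exact hk1

/-- **The number of Jordan blocks of a unipotent isometry has the parity of the dimension.** -/
theorem parity (h2 : (2 : K) ≠ 0) (hsym : ∀ x y, B x y = B y x)
    (hnd : ∀ x, (∀ y, B x y = 0) → x = 0) (hiso : ∀ x y, B (ψ x) (ψ y) = B x y)
    (hnil : IsNilpotent (ψ - 1)) :
    ∃ s, finrank K V = finrank K (LinearMap.ker (ψ - 1)) + 2 * s := by
  set ω : V →ₗ[K] V →ₗ[K] K := B ∘ₗ ψ - B.compl₂ ψ with hω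
  have hω' : ∀ x y, ω x y = B (ψ x) y - B x (ψ y) := fun x y => rfl
  have hker : LinearMap.ker ω = LinearMap.ker (ψ - 1) := by
    ext x
    rw [LinearMap.mem_ker, LinearMap.mem_ker]
    constructor
    · intro h
      have h1 : ∀ y, B (ψ x) y = B x (ψ y) := fun y => by
        have := congrArg (fun F => F y) h
        rw [LinearMap.zero_apply, hω', sub_eq_zero] at this
        exact this
      -- `ψ ^ 2 x = x`
      have h3 : ψ (ψ x) = x := by
        rw [← sub_eq_zero]
        apply hnd
        intro y
        -- the isometry is surjective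
        have hinj : Function.Injective ψ := by
          rw [← LinearMap.ker_eq_bot, LinearMap.ker_eq_bot']
          intro z hz
          apply hnd
          intro y
          rw [← hiso, hz, map_zero, LinearMap.zero_apply]
        obtain ⟨w, rfl⟩ := (LinearMap.injective_iff_surjective.1 hinj) y
        rw [map_sub, LinearMap.sub_apply, hiso, h1, sub_self]
      have h4 : (ψ + 1) ((ψ - 1) x) = 0 := by
        rw [LinearMap.add_apply, LinearMap.sub_apply, Module.End.one_apply, Module.End.one_apply,
          map_sub, h3]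
        abel
      have hu : IsUnit (ψ + 1) := by
        have e1 : ψ + 1 = (algebraMap K (Module.End K V) 2) + (ψ - 1) := by
          rw [map_ofNat, ← one_add_one_eq_two]; abel
        rw [e1]
        have hu2 : IsUnit (algebraMap K (Module.End K V) 2) :=
          (IsUnit.mk0 _ h2).map (algebraMap K (Module.End K V))
        exact hnil.isUnit_add_left_of_commute hu2 (Algebra.commutes _ _).symm
      obtain ⟨u, hu⟩ := hu
      have h5 : ((u⁻¹ : (Module.End K V)ˣ) : Module.End K V) ((ψ + 1) ((ψ - 1) x)) = (ψ - 1) x := by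
        rw [← Module.End.mul_apply, ← hu, Units.inv_mul, Module.End.one_apply]
      rw [← h5, h4, map_zero]
    · intro h
      rw [LinearMap.sub_apply, Module.End.one_apply, sub_eq_zero] at h
      apply LinearMap.ext
      intro y
      rw [LinearMap.zero_apply, hω', h, sub_eq_zero]
      conv_rhs => rw [← h]
      rw [hiso]
  obtain ⟨s, hs⟩ := even_alt h2 ω (fun x => by rw [hω', hsym, sub_self])
  exact ⟨s, by rw [hs, hker]⟩

end Uni

end Pool.Agent.H934.PT
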