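import Pool.Agent.H934.PT.Ind

/-!
# Parity and gaps for the spaces of Tate classes
-/

open CategoryTheory AlgebraicGeometry Finset Module

universe u v

namespace Pool.Agent.H934.PT

open Pool.Agent.H914 Pool.Agent.H447 VarClass Obj WeilCohomology Pool.Agent.H934.GA

variable {k : Type u} [Field k] {𝒱 : VarClass k} {ops : CycleOps 𝒱}
  {W : WeilCohomology.{u, v} ops} {X : 𝒱.Obj}

lemma rank_zero (W : WeilCohomology.{u, v} ops) {X : 𝒱.Obj} (D : X.Cycles) (f : X ⟶ X)
    (q j : ℕ) : FixedRankAtLeast W D f q j 0 :=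
  ⟨fun a => a.elim0, fun a => a.elim0, by simp⟩

/-- The rank is at least one, because of the powers of the divisor. -/
lemma rank_one {D : X.Cycles} (hD : X.IsCyc 1 D) (hHL : HardLefschetz W X D) {f : X ⟶ X} {q : ℕ}
    (hf : W.map f (W.cl X D) = (q : W.K) • W.cl X D) {j : ℕ} (hj : 2 * j ≤ X.dim)
    (h1 : (1 : W.H X) ≠ 0) : FixedRankAtLeast W D f q j 1 := by
  have hm : X.IsCyc j (divPow ops D j X.V.fundCycle) := by
    have := divPow_mem (ops := ops) hD j X.V.fundCycle_mem
    rwa [zero_add] at this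
  have hcl : W.cl X (divPow ops D j X.V.fundCycle) = W.cl X D ^ j := by
    rw [cl_divPow, W.cl_fund, LinearMap.pow_mulLeft, LinearMap.mulLeft_apply, mul_one]
  refine ⟨fun _ => divPow ops D j X.V.fundCycle, fun _ => ⟨hm, ?_⟩, ?_⟩
  · rw [hcl, map_pow, hf, _root_.smul_pow]
  · rw [Matrix.det_fin_one, Matrix.of_apply]
    intro h0
    have h3 := divPow_mem (ops := ops) hD (X.dim - 2 * j) hm
    have h2 := tr_mul_cl (W := W) hm h3 (by omega)
    rw [h0, Rat.cast_zero, hcl, cl_divPow D (X.dim - 2 * j), hcl, LinearMap.pow_mulLeft,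
      LinearMap.mulLeft_apply,
      ← pow_add, ← pow_add, show j + (X.dim - 2 * j + j) = X.dim by omega] at h2
    have h4 := eq_zero_of_top (cl_pow_mem hD _) h2
    apply h1
    refine (hHL 0 (Nat.zero_le _)).1 1 (W.one_mem X) ?_
    rw [Nat.sub_zero, LinearMap.pow_mulLeft, LinearMap.mulLeft_apply, h4, zero_mul]

lemma tate_eq_gen {f : X ⟶ X} {q j : ℕ}
    (h : finrank W.K (genTateClasses W f q j) ≤ finrank W.K (tateClasses W f q j)) :
    tateClasses W f q j = genTateClasses W f q j :=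
  Submodule.eq_of_le_of_finrank_le (tate_le_gen f q j) h

/-- **Parity and gaps for the spaces of Tate classes.** -/
theorem parity_gap (X : 𝒱.Obj) {D : X.Cycles} (hD : X.IsCyc 1 D) (f : X ⟶ X) {q : ℕ}
    (hq : 1 < q) {j : ℕ} (hj : 2 * j ≤ X.dim) :
    ∃ m : ℕ, ∀ W : WeilCohomology.{u, v} ops, HardLefschetz W X D →
      W.map f (W.cl X D) = (q : W.K) • W.cl X D → RiemannHypothesis W X f q →
      ParityLaw W f q j m ∧ ∀ r, FixedRankAtLeast W D f q j r → GapLaw W D f q j m r := by
  have main : ∀ W : WeilCohomology.{u, v} ops, HardLefschetz W X D →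
      W.map f (W.cl X D) = (q : W.K) • W.cl X D → ∀ m,
      finrank W.K (genTateClasses W f q j) = m →
      finrank W.K (tateClasses W f q j) % 2 = m % 2 ∧
      (m ≤ 3 → tateClasses W f q j = genTateClasses W f q j) ∧
      ∀ r, FixedRankAtLeast W D f q j r →
        r ≤ finrank W.K (tateClasses W f q j) ∧
        (r < m → r < finrank W.K (tateClasses W f q j)) ∧
        2 * finrank W.K (numTrivial W D f q j) + r ≤ m ∧
        (m ≤ r + 2 → tateClasses W f q j = genTateClasses W f q j) := by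
    intro W hHL hf m hm
    have hle := Submodule.finrank_mono (tate_le_gen (W := W) f q j)
    have hall : ∀ r, FixedRankAtLeast W D f q j r →
        r ≤ finrank W.K (tateClasses W f q j) ∧
        (r < m → r < finrank W.K (tateClasses W f q j)) ∧
        2 * finrank W.K (numTrivial W D f q j) + r ≤ m ∧
        (m ≤ r + 2 → tateClasses W f q j = genTateClasses W f q j) := by
      intro r hr
      obtain ⟨⟨s, hs⟩, h2, h3, h4⟩ := main_W hD hHL (by omega) hf hj hr
      rw [hm] at hs h3 h4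
      refine ⟨h2, h3, h4, fun h5 => tate_eq_gen ?_⟩
      rw [hm] at hle ⊢
      rcases Nat.lt_or_ge r m with h6 | h6
      · have := h3 h6
        omega
      · omega
    obtain ⟨⟨s, hs⟩, -, -, -⟩ := main_W hD hHL (by omega) hf hj (rank_zero W D f q j)
    refine ⟨by omega, fun h5 => ?_, hall⟩
    by_cases h1 : (1 : W.H X) = 0
    · apply tate_eq_gen
      have h7 : genTateClasses W f q j = ⊥ := by
        rw [eq_bot_iff]
        intro x _
        rw [Submodule.mem_bot, ← one_mul x, h1, zero_mul]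
      rw [h7, finrank_bot]
      exact Nat.zero_le _
    · exact (hall 1 (rank_one hD hHL hf hj h1)).2.2.2 (by omega)
  by_cases hex : ∃ W₀ : WeilCohomology.{u, v} ops, RiemannHypothesis W₀ X f q
  · obtain ⟨W₀, hW₀⟩ := hex
    refine ⟨finrank W₀.K (genTateClasses W₀ f q j), fun W hHL hf hRH => ?_⟩
    have h1 := finrank_gen_indep hq hRH hW₀ j
    obtain ⟨h2, h3, h4⟩ := main W hHL hf _ h1
    exact ⟨⟨h1, h2, h3⟩, h4⟩
  · exact ⟨0, fun W _ _ hRH => absurd ⟨W, hRH⟩ hex⟩

end Pool.Agent.H934.PT
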