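import Pool.Agent.H934.PT.Lin

/-!
# Unipotent isometries and known fixed vectors
-/

open Module

namespace Pool.Agent.H934.PT

section Uni

variable {K : Type*} [Field K] {V : Type*} [AddCommGroup V] [Module K V] [FiniteDimensional K V]
  {B : V →ₗ[K] V →ₗ[K] K} {ψ : Module.End K V} {r : ℕ} {v : Fin r → V}

omit [FiniteDimensional K V] in
/-- A vector in the span which is orthogonal to the vectors is zero. -/
lemma eq_zero_of_det (hdet : (Matrix.of fun a b => B (v a) (v b)).det ≠ 0) {g : Fin r → K}
    (h : ∀ a, B (v a) (∑ b, g b • v b) = 0) : g = 0 := by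
  apply Matrix.eq_zero_of_mulVec_eq_zero hdet
  funext a
  have h1 := h a
  rw [map_sum] at h1
  simp only [map_smul, smul_eq_mul] at h1
  rw [Pi.zero_apply, Matrix.mulVec, dotProduct, ← h1]
  apply Finset.sum_congr rfl
  intro b _
  rw [Matrix.of_apply, mul_comm]

omit [FiniteDimensional K V] in
lemma indep_of_det (hdet : (Matrix.of fun a b => B (v a) (v b)).det ≠ 0) :
    LinearIndependent K v := by
  rw [Fintype.linearIndependent_iff]
  intro g hg a
  have := eq_zero_of_det hdet (g := g) (fun a => by rw [hg, map_zero])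
  rw [this, Pi.zero_apply]

/-- The orthogonal decomposition. -/
lemma exists_comp (hdet : (Matrix.of fun a b => B (v a) (v b)).det ≠ 0) (x : V) :
    ∃ g : Fin r → K, ∀ a, B (v a) (x - ∑ b, g b • v b) = 0 := by
  set G := Matrix.of fun a b => B (v a) (v b) with hG
  refine ⟨G⁻¹.mulVec fun a => B (v a) x, fun a => ?_⟩
  rw [map_sub, sub_eq_zero, map_sum]
  simp only [map_smul, smul_eq_mul]
  have h1 : G.mulVec (G⁻¹.mulVec fun a => B (v a) x) = fun a => B (v a) x := by
    rw [Matrix.mulVec_mulVec, Matrix.mul_nonsing_inv _ (Ne.isUnit hdet), Matrix.one_mulVec]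
  have h2 := congrFun h1 a
  rw [Matrix.mulVec, dotProduct] at h2
  rw [← h2]
  apply Finset.sum_congr rfl
  intro b _
  rw [hG, Matrix.of_apply, mul_comm]

/-- If there are fewer vectors than the dimension there is a vector orthogonal to all. -/
lemma exists_orth (hdet : (Matrix.of fun a b => B (v a) (v b)).det ≠ 0) (h : r < finrank K V) :
    ∃ x, x ≠ 0 ∧ ∀ a, B (v a) x = 0 := by
  have h1 : Submodule.span K (Set.range v) ≠ ⊤ := by
    intro h0
    have h2 := finrank_span_eq_card (indep_of_det hdet)
    rw [h0, finrank_top, Fintype.card_fin] at h2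
    omega
  obtain ⟨x, hx⟩ : ∃ x, x ∉ Submodule.span K (Set.range v) := by
    by_contra hcon
    push Not at hcon
    exact h1 (eq_top_iff.2 fun x _ => hcon x)
  obtain ⟨g, hg⟩ := exists_comp hdet x
  refine ⟨_, fun h0 => hx ?_, hg⟩
  rw [sub_eq_zero.1 h0]
  exact Submodule.sum_mem _ fun b _ => Submodule.smul_mem _ _ (Submodule.subset_span ⟨b, rfl⟩)

/-- Isotropic subspaces orthogonal to the vectors. -/
lemma half (hsym : ∀ x y, B x y = B y x) (hnd : ∀ x, (∀ y, B x y = 0) → x = 0)
    (hdet : (Matrix.of fun a b => B (v a) (v b)).det ≠ 0) {R : Submodule K V}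
    (hR : ∀ x ∈ R, ∀ y ∈ R, B x y = 0) (hRv : ∀ x ∈ R, ∀ a, B (v a) x = 0) :
    2 * finrank K R + r ≤ finrank K V := by
  have hrefl : LinearMap.IsRefl B := fun x y h => by rw [hsym, h]
  have hnd' : LinearMap.BilinForm.Nondegenerate B :=
    (LinearMap.IsRefl.nondegenerate_iff_separatingLeft hrefl).2 fun x hx => hnd x hx
  have h1 := LinearMap.BilinForm.finrank_orthogonal hnd' R
  have hdisj : Disjoint (Submodule.span K (Set.range v)) R := by
    rw [Submodule.disjoint_def]
    intro x hx hxR
    rw [Submodule.mem_span_range_iff_exists_fun] at hx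
    obtain ⟨g, rfl⟩ := hx
    rw [eq_zero_of_det hdet (hRv _ hxR)]
    simp
  have hle : Submodule.span K (Set.range v) ⊔ R ≤ LinearMap.BilinForm.orthogonal B R := by
    apply sup_le
    · rw [Submodule.span_le]
      rintro _ ⟨a, rfl⟩
      rw [SetLike.mem_coe, LinearMap.BilinForm.mem_orthogonal_iff]
      intro x hx
      rw [hsym]
      exact hRv x hx a
    · intro x hx
      rw [LinearMap.BilinForm.mem_orthogonal_iff]
      intro y hy
      exact hR y hy x hx
  have h2 := Submodule.finrank_mono hle
  have h3 := Submodule.finrank_sup_add_finrank_inf_eq (Submodule.span K (Set.range v)) R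
  rw [hdisj.eq_bot, finrank_bot, finrank_span_eq_card (indep_of_det hdet), Fintype.card_fin] at h3
  have h4 := Submodule.finrank_le R
  omega

/-- The main statement for unipotent isometries. -/
theorem uni_main (h2 : (2 : K) ≠ 0) (hsym : ∀ x y, B x y = B y x)
    (hnd : ∀ x, (∀ y, B x y = 0) → x = 0) (hiso : ∀ x y, B (ψ x) (ψ y) = B x y)
    (hnil : IsNilpotent (ψ - 1)) (hv : ∀ a, ψ (v a) = v a)
    (hdet : (Matrix.of fun a b => B (v a) (v b)).det ≠ 0) :
    (∃ s, finrank K V = finrank K (LinearMap.ker (ψ - 1)) + 2 * s) ∧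
      r ≤ finrank K (LinearMap.ker (ψ - 1)) ∧
      (r < finrank K V → r < finrank K (LinearMap.ker (ψ - 1))) := by
  have hvk : ∀ a, v a ∈ LinearMap.ker (ψ - 1) := fun a => by
    rw [LinearMap.mem_ker, LinearMap.sub_apply, Module.End.one_apply, hv, sub_self]
  have hli := indep_of_det hdet
  refine ⟨parity h2 hsym hnd hiso hnil, ?_, fun hr => ?_⟩
  · have h3 : LinearIndependent K (fun a => (⟨v a, hvk a⟩ : LinearMap.ker (ψ - 1))) := by
      apply LinearIndependent.of_comp (LinearMap.ker (ψ - 1)).subtype
      exact hli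
    have := h3.fintype_card_le_finrank
    rwa [Fintype.card_fin] at this
  · obtain ⟨x, hx0, hx⟩ := exists_orth hdet hr
    obtain ⟨y, hy, hy0, hyf⟩ := exists_fixed (p := fun x => ∀ a, B (v a) x = 0) hnil
      (fun x hx a => by
        rw [LinearMap.sub_apply, Module.End.one_apply, map_sub, hx a, sub_zero]
        conv_lhs => rw [← hv a]
        rw [hiso, hx a]) hx hx0
    have hyk : y ∈ LinearMap.ker (ψ - 1) := by
      rw [LinearMap.mem_ker, LinearMap.sub_apply, Module.End.one_apply, hyf, sub_self]
    have h3 : LinearIndependent K (Fin.cons (⟨y, hyk⟩ : LinearMap.ker (ψ - 1))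
        (fun a => (⟨v a, hvk a⟩ : LinearMap.ker (ψ - 1)))) := by
      rw [linearIndependent_finCons]
      constructor
      · apply LinearIndependent.of_comp (LinearMap.ker (ψ - 1)).subtype
        exact hli
      · intro hmem
        rw [Submodule.mem_span_range_iff_exists_fun] at hmem
        obtain ⟨g, hg⟩ := hmem
        have h4 : ∑ b, g b • v b = y := by
          have := congrArg (LinearMap.ker (ψ - 1)).subtype hg
          rw [map_sum] at this
          simpa using this
        have h5 := eq_zero_of_det hdet (g := g) (fun a => by rw [h4]; exact hy a)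
        apply hy0
        rw [← h4, h5]
        simp
    have := h3.fintype_card_le_finrank
    rw [Fintype.card_fin] at this
    omega

end Uni

section Gen

variable {K : Type*} [Field K] {V : Type*} [AddCommGroup V] [Module K V] [FiniteDimensional K V]
  {B : V →ₗ[K] V →ₗ[K] K} {φ : Module.End K V} {c : K}

/-- The generalised eigenspace is nondegenerate. -/
lemma nondeg_gen (hc : c ≠ 0) (hsym : ∀ x y, B x y = B y x)
    (hnd : ∀ x, (∀ y, B x y = 0) → x = 0) (hiso : ∀ x y, B (φ x) (φ y) = c ^ 2 * B x y)
    {x : V} (hx : x ∈ φ.maxGenEigenspace c) (h : ∀ y ∈ φ.maxGenEigenspace c, B x y = 0) :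
    x = 0 := by
  classical
  -- the isometry is bijective
  have hinj : Function.Injective φ := by
    rw [← LinearMap.ker_eq_bot, LinearMap.ker_eq_bot']
    intro z hz
    apply hnd
    intro y
    have h1 := hiso z y
    rw [hz, map_zero, LinearMap.zero_apply] at h1
    exact (mul_eq_zero.1 h1.symm).resolve_left (pow_ne_zero _ hc)
  have hsurj := LinearMap.injective_iff_surjective.1 hinj
  -- orthogonality of kernels and ranges
  have key : ∀ (k : ℕ) (x w : V), ((φ - algebraMap K (Module.End K V) c) ^ k) x = 0 →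
      B x (((φ - algebraMap K (Module.End K V) c) ^ k) w) = 0 := by
    intro k
    induction k with
    | zero =>
      intro x w hx
      rw [pow_zero, Module.End.one_apply] at hx
      rw [hx, map_zero, LinearMap.zero_apply]
    | succ k ih =>
      intro x w hx
      obtain ⟨x', rfl⟩ := hsurj x
      set N := φ - algebraMap K (Module.End K V) c with hN
      have hcomm : Commute φ N := (Commute.refl φ).sub_right (Algebra.commutes c φ).symm
      have h1 : (N ^ (k + 1)) x' = 0 := by
        apply hinj
        rw [map_zero, ← Module.End.mul_apply, (hcomm.pow_right (k + 1)).eq, Module.End.mul_apply]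
        exact hx
      have h2 : (N ^ k) (N x') = 0 := by
        rw [← Module.End.mul_apply, ← pow_succ, h1]
      have h3 := ih (N x') w h2
      -- `B (φ x') (N u) = - c B (N x') u`
      have h4 : ∀ u, B (φ x') (N u) = - c * B (N x') u := by
        intro u
        rw [hN, LinearMap.sub_apply, LinearMap.sub_apply, Module.algebraMap_end_apply,
          Module.algebraMap_end_apply, map_sub, map_sub, map_smul, hiso, map_smul,
          LinearMap.sub_apply, LinearMap.smul_apply]
        simp only [smul_eq_mul]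
        ring
      rw [pow_succ', Module.End.mul_apply, h4, h3, mul_zero]
  obtain ⟨k, hk⟩ : ∃ k : ℕ, IsCompl (LinearMap.ker ((φ - algebraMap K (Module.End K V) c) ^ k))
      (LinearMap.range ((φ - algebraMap K (Module.End K V) c) ^ k)) ∧
      ((φ - algebraMap K (Module.End K V) c) ^ k) x = 0 := by
    obtain ⟨k₁, hk₁⟩ := (Module.End.mem_maxGenEigenspace _ _ _).1 hx
    have h1 := LinearMap.eventually_isCompl_ker_pow_range_pow
      (φ - algebraMap K (Module.End K V) c)
    rw [Filter.eventually_atTop] at h1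
    obtain ⟨k₂, hk₂⟩ := h1
    refine ⟨max k₁ k₂, hk₂ _ (le_max_right _ _), ?_⟩
    obtain ⟨j, hj⟩ := Nat.exists_eq_add_of_le (le_max_left k₁ k₂)
    rw [hj, add_comm, pow_add, Module.End.mul_apply]
    have h3 : ((φ - algebraMap K (Module.End K V) c) ^ k₁) x = 0 := by
      rw [Algebra.algebraMap_eq_smul_one]; exact hk₁
    rw [h3, map_zero]
  obtain ⟨hcompl, hxk⟩ := hk
  apply hnd
  intro y
  have hy : y ∈ LinearMap.ker ((φ - algebraMap K (Module.End K V) c) ^ k) ⊔
      LinearMap.range ((φ - algebraMap K (Module.End K V) c) ^ k) := by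
    rw [hcompl.sup_eq_top]; trivial
  obtain ⟨a, ha, b, ⟨w, rfl⟩, rfl⟩ := Submodule.mem_sup.1 hy
  rw [map_add, key k x w hxk, add_zero]
  apply h
  rw [Module.End.mem_maxGenEigenspace]
  refine ⟨k, ?_⟩
  rw [← Algebra.algebraMap_eq_smul_one]
  exact ha

/-- **The main statement of linear algebra.** -/
theorem gen_main (h2 : (2 : K) ≠ 0) (hc : c ≠ 0) (hsym : ∀ x y, B x y = B y x)
    (hnd : ∀ x, (∀ y, B x y = 0) → x = 0) (hiso : ∀ x y, B (φ x) (φ y) = c ^ 2 * B x y)
    {r : ℕ} {v : Fin r → V} (hv : ∀ a, φ (v a) = c • v a)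
    (hdet : (Matrix.of fun a b => B (v a) (v b)).det ≠ 0) :
    (∃ s, finrank K (φ.maxGenEigenspace c) = finrank K (φ.eigenspace c) + 2 * s) ∧
      r ≤ finrank K (φ.eigenspace c) ∧
      (r < finrank K (φ.maxGenEigenspace c) → r < finrank K (φ.eigenspace c)) ∧
      ∀ R : Submodule K V, R ≤ φ.eigenspace c → (∀ x ∈ R, ∀ y ∈ R, B x y = 0) →
        (∀ x ∈ R, ∀ a, B (v a) x = 0) →
        2 * finrank K R + r ≤ finrank K (φ.maxGenEigenspace c) := by
  set T := φ.maxGenEigenspace c with hT
  have hle : φ.eigenspace c ≤ T := by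
    intro x hx
    rw [hT, Module.End.mem_maxGenEigenspace]
    refine ⟨1, ?_⟩
    rw [Module.End.mem_eigenspace_iff] at hx
    rw [pow_one, LinearMap.sub_apply, hx, LinearMap.smul_apply, Module.End.one_apply, sub_self]
  have hmap : ∀ x ∈ T, (c⁻¹ • φ) x ∈ T := by
    intro x hx
    rw [LinearMap.smul_apply]
    exact Submodule.smul_mem _ _ (Module.End.mapsTo_maxGenEigenspace_of_comm (Commute.refl φ) c hx)
  set ψ : Module.End K T := (c⁻¹ • φ).restrict hmap with hψ
  have hψ' : ∀ x : T, ((ψ x : T) : V) = c⁻¹ • φ x := fun x => rfl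
  set B' : T →ₗ[K] T →ₗ[K] K := B.domRestrict₁₂ T T with hB'
  have hB'' : ∀ x y : T, B' x y = B x y := fun x y => rfl
  have hnil : IsNilpotent (ψ - 1) := by
    obtain ⟨k, hk⟩ : ∃ k : ℕ, ∀ x ∈ T, ((φ - c • (1 : Module.End K V)) ^ k) x = 0 := by
      refine ⟨φ.maxGenEigenspaceIndex c, fun x hx => ?_⟩
      rw [hT, Module.End.maxGenEigenspace_eq, Module.End.mem_genEigenspace_nat,
        LinearMap.mem_ker] at hx
      exact hx
    refine ⟨k, ?_⟩
    have h1 : ∀ (j : ℕ) (x : T), ((((ψ - 1) ^ j) x : T) : V) =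
        (c⁻¹) ^ j • ((φ - c • (1 : Module.End K V)) ^ j) x := by
      intro j
      induction j with
      | zero => intro x; simp
      | succ j ih =>
        intro x
        rw [pow_succ', Module.End.mul_apply, LinearMap.sub_apply, Module.End.one_apply,
          AddSubgroupClass.coe_sub, hψ', ih, pow_succ' (φ - c • (1 : Module.End K V)),
          Module.End.mul_apply, LinearMap.sub_apply, map_smul, LinearMap.smul_apply,
          Module.End.one_apply, smul_sub, smul_smul, smul_smul, ← pow_succ']
        congr 2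
        rw [pow_succ, mul_assoc, inv_mul_cancel₀ hc, mul_one]
    apply LinearMap.ext
    intro x
    apply Subtype.ext
    rw [h1, hk x x.2, smul_zero]
    rfl
  set v' : Fin r → T := fun a => ⟨v a, hle ((Module.End.mem_eigenspace_iff).2 (hv a))⟩ with hv'
  have hmain := uni_main (B := B') (ψ := ψ) (v := v') h2 (fun x y => hsym x y)
    (fun x hx => Subtype.ext (nondeg_gen hc hsym hnd hiso x.2 fun y hy => hx ⟨y, hy⟩))
    (fun x y => by
      rw [hB'', hB'', hψ', hψ']
      simp only [map_smul, LinearMap.smul_apply, smul_eq_mul, hiso]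
      field_simp) hnil
    (fun a => Subtype.ext (by
      have h7 : c⁻¹ • φ (v a) = v a := by rw [hv, smul_smul, inv_mul_cancel₀ hc, one_smul]
      exact h7)) hdet
  have hker : finrank K (LinearMap.ker (ψ - 1)) = finrank K (φ.eigenspace c) := by
    have h1 : (LinearMap.ker (ψ - 1)).map T.subtype = φ.eigenspace c := by
      ext x
      rw [Submodule.mem_map]
      constructor
      · rintro ⟨y, hy, rfl⟩
        rw [LinearMap.mem_ker, LinearMap.sub_apply, Module.End.one_apply, sub_eq_zero] at hy
        have h3 := congrArg Subtype.val hy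
        rw [hψ'] at h3
        rw [Module.End.mem_eigenspace_iff, Submodule.subtype_apply]
        conv_rhs => rw [← h3]
        rw [smul_smul, mul_inv_cancel₀ hc, one_smul]
      · intro hx
        refine ⟨⟨x, hle hx⟩, ?_, rfl⟩
        rw [LinearMap.mem_ker, LinearMap.sub_apply, Module.End.one_apply, sub_eq_zero]
        apply Subtype.ext
        rw [hψ']
        rw [Module.End.mem_eigenspace_iff] at hx
        rw [hx, smul_smul, inv_mul_cancel₀ hc, one_smul]
    rw [← h1]
    exact (Submodule.finrank_map_subtype_eq T _).symm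
  rw [hker] at hmain
  obtain ⟨h3, h4, h5⟩ := hmain
  refine ⟨h3, h4, h5, fun R hRE hR hRv => ?_⟩
  have h7 := half (B := B') (v := v') (R := R.comap T.subtype) (fun x y => hsym x y)
    (fun x hx => Subtype.ext (nondeg_gen hc hsym hnd hiso x.2 fun y hy => hx ⟨y, hy⟩)) hdet
    (fun x hx y hy => hR x hx y hy) (fun x hx a => hRv x hx a)
  have h8 : finrank K (R.comap T.subtype) = finrank K R :=
    (Submodule.comapSubtypeEquivOfLe (hRE.trans hle)).finrank_eq
  rwa [h8] at h7

end Gen

end Pool.Agent.H934.PT
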